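import Pool.Agent.helper60.XP.SpecT

/-! # xp:DIS. Geometry at the base point -/

set_option autoImplicit false

open Complex Metric Set Filter Topology MeasureTheory
open V3S (UF)
open XP

noncomputable section

namespace XPT

theorem DIS_it {n : ℕ} {C A : ℝ} {D : Dat} (h : D.Good n C A) (j : ℕ) :
    D.it j (D.b 0) = D.b (j : ZMod D.k) := by
  induction j with
  | zero =>
    rw [Nat.cast_zero]
    rfl
  | succ j ih =>
    have h1 : D.it (j + 1) (D.b 0) = D.f.eval (D.it j (D.b 0)) := Function.iterate_succ_apply' _ _ _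
    rw [h1, ih, h.cyc.step, Nat.cast_succ]

theorem DIS_itd (D : Dat) (j : ℕ) : Differentiable ℂ (D.it j) := by
  induction j with
  | zero => exact differentiable_id
  | succ j ih =>
    have h1 : D.it (j + 1) = fun z => D.f.eval (D.it j z) := by
      funext z
      exact Function.iterate_succ_apply' _ _ _
    rw [h1]
    exact D.f.differentiable.comp ih

theorem DIS_sg {n : ℕ} {C A : ℝ} {D : Dat} (h : D.Good n C A) : D.sg ≠ 0 := by
  have h1 := h.Rpos 0
  show ((D.R 0 : ℝ) : ℂ) ≠ 0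
  exact_mod_cast h1.ne'

theorem DIS_zzF {n : ℕ} {C A : ℝ} {D : Dat} (h : D.Good n C A) (j : ℕ) (x : ℂ) :
    D.zz (D.F j x) = D.it j (D.zz x) := by
  have h0 := DIS_sg h
  show D.b 0 + D.sg * ((D.it j (D.zz x) - D.b 0) / D.sg) = D.it j (D.zz x)
  field_simp
  ring

theorem DIS_der {n : ℕ} {C A : ℝ} {D : Dat} (h : D.Good n C A) (j : ℕ) (x : ℂ) :
    deriv (D.F j) x = deriv (D.it j) (D.zz x) := by
  have h0 := DIS_sg h
  have h1 : HasDerivAt D.zz (D.sg * 1) x := by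
    have := ((hasDerivAt_id x).const_mul D.sg).const_add (D.b 0)
    exact this
  have h2 : HasDerivAt (D.it j) (deriv (D.it j) (D.zz x)) (D.zz x) :=
    (DIS_itd D j (D.zz x)).hasDerivAt
  have h3 : HasDerivAt (D.F j) (deriv (D.it j) (D.zz x) * (D.sg * 1) / D.sg) x :=
    ((h2.comp x h1).sub_const (D.b 0)).div_const D.sg
  rw [h3.deriv]
  field_simp

theorem DIS (h0 : V3.KO0_stmt) (h3 : V3.KO3_stmt) : DIS_stmt := by
  intro C hC
  obtain ⟨K, hK1, hK⟩ := h3 (1 / 2) (by norm_num) (by norm_num)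
  have hK0 : 0 < K := lt_of_lt_of_le one_pos hK1
  have hC0 : 0 < C := lt_of_lt_of_le one_pos hC
  have hKC : 1 ≤ K * C := one_le_mul_of_one_le_of_one_le hK1 hC
  refine ⟨1 / (5 * (K * C)), K ^ 2, fun n A D hD => ?_⟩
  have hR0 := hD.Rpos 0
  have hsg := DIS_sg hD
  have hsn : ‖D.sg‖ = D.R 0 := by
    show ‖((D.R 0 : ℝ) : ℂ)‖ = D.R 0
    rw [Complex.norm_real, Real.norm_eq_abs, abs_of_pos hR0]
  have hzz : ∀ x : ℂ, ‖D.zz x - D.b 0‖ = D.R 0 * ‖x‖ := by
    intro x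
    show ‖D.b 0 + D.sg * x - D.b 0‖ = D.R 0 * ‖x‖
    rw [add_sub_cancel_left, norm_mul, hsn]
  have hc4 : 1 / (5 * (K * C)) ≤ 1 / 5 := by
    apply one_div_le_one_div_of_le (by norm_num)
    linarith
  -- distortion
  have key : ∀ j ≤ D.k, ∀ x ∈ ball (0 : ℂ) (1 / 4),
      ‖deriv (D.it j) (D.b 0)‖ ≤ K * ‖deriv (D.it j) (D.zz x)‖ ∧
      ‖D.it j (D.zz x) - D.b (j : ZMod D.k)‖ ≤ K * (D.R 0 * ‖x‖) * ‖deriv (D.it j) (D.b 0)‖ := by
    intro j hj x hx
    have h4 := (hK (D.it j) (D.b 0) (D.R 0 / 2) (by linarith) ((DIS_itd D j).differentiableOn)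
      (hD.inj 0 j hj)).2 (D.zz x) (by
        rw [mem_ball_iff_norm, hzz]
        rw [mem_ball_zero_iff] at hx
        nlinarith)
    refine ⟨h4.2.1, ?_⟩
    have h5 := h4.2.2.1
    rw [DIS_it hD, hzz] at h5
    exact h5
  have hrng : ∀ j ≤ D.k, ∀ x ∈ ball (0 : ℂ) (1 / (5 * (K * C))),
      ‖D.it j (D.zz x) - D.b (j : ZMod D.k)‖ < D.R (j : ZMod D.k) / 4 := by
    intro j hj x hx
    rw [mem_ball_zero_iff] at hx
    have hRj := hD.Rpos (j : ZMod D.k)
    have h4 := (key j hj x (by rw [mem_ball_zero_iff]; linarith)).2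
    have h5 := hD.trans 0 j hj
    rw [zero_add] at h5
    have h6 : K * (D.R 0 * ‖x‖) * ‖deriv (D.it j) (D.b 0)‖ ≤
        K * (1 / (5 * (K * C))) * (C * D.R (j : ZMod D.k)) := by
      have h7 : K * (D.R 0 * ‖x‖) * ‖deriv (D.it j) (D.b 0)‖ =
          (K * ‖x‖) * (‖deriv (D.it j) (D.b 0)‖ * D.R 0) := by ring
      rw [h7]
      refine mul_le_mul ?_ h5 (by positivity) (by positivity)
      exact mul_le_mul_of_nonneg_left hx.le hK0.le
    have h8 : K * (1 / (5 * (K * C))) * (C * D.R (j : ZMod D.k)) = D.R (j : ZMod D.k) / 5 := by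
      field_simp
    rw [h8] at h6
    linarith
  refine ⟨by positivity, by linarith, one_le_pow₀ hK1, ?_, ?_, ?_, ?_⟩
  · intro j hj x hx
    rw [DIS_zzF hD, mem_ball_iff_norm]
    exact hrng j hj x hx
  · intro j₁ j₂ h1 hk1 h2 hk2 x₁ hx₁ x₂ hx₂ he
    by_contra hne
    have hz : ((j₁ : ZMod D.k)) ≠ (j₂ : ZMod D.k) := by
      intro h
      rw [ZMod.natCast_eq_natCast_iff] at h
      have hd : (D.k : ℤ) ∣ (j₂ : ℤ) - j₁ := h.dvd
      obtain ⟨t, ht⟩ := hd
      have hkp : 0 < D.k := Nat.pos_of_ne_zero D.nz.out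
      have hk' : (0 : ℤ) < D.k := by exact_mod_cast hkp
      have a1 : (1 : ℤ) ≤ j₁ := by exact_mod_cast h1
      have a2 : (1 : ℤ) ≤ j₂ := by exact_mod_cast h2
      have a3 : (j₁ : ℤ) ≤ D.k := by exact_mod_cast hk1
      have a4 : (j₂ : ℤ) ≤ D.k := by exact_mod_cast hk2
      have t0 : t = 0 := by
        by_contra h0
        rcases lt_or_gt_of_ne h0 with h' | h'
        · have : t ≤ -1 := by omega
          nlinarith
        · have : 1 ≤ t := by omega
          nlinarith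
      rw [t0, mul_zero] at ht
      apply hne
      have : (j₁ : ℤ) = j₂ := by linarith
      exact_mod_cast this
    have e1 := hrng j₁ hk1 x₁ hx₁
    have e2 := hrng j₂ hk2 x₂ hx₂
    have e3 : D.it j₁ (D.zz x₁) = D.it j₂ (D.zz x₂) := by
      rw [← DIS_zzF hD, ← DIS_zzF hD, he]
    have s1 := hD.sepr _ _ hz
    have s2 := hD.sepr _ _ (Ne.symm hz)
    rw [norm_sub_rev] at s2
    have e4 : ‖D.b (j₁ : ZMod D.k) - D.b (j₂ : ZMod D.k)‖ ≤
        ‖D.it j₁ (D.zz x₁) - D.b (j₁ : ZMod D.k)‖ + ‖D.it j₂ (D.zz x₂) - D.b (j₂ : ZMod D.k)‖ := by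
      have h5 : D.b (j₁ : ZMod D.k) - D.b (j₂ : ZMod D.k) =
          (D.it j₂ (D.zz x₂) - D.b (j₂ : ZMod D.k)) - (D.it j₁ (D.zz x₁) - D.b (j₁ : ZMod D.k)) := by
        rw [e3]
        ring
      rw [h5, add_comm]
      exact norm_sub_le _ _
    have p1 := hD.Rpos (j₁ : ZMod D.k)
    linarith
  · intro j hj x hx y hy hxy
    rw [mem_ball_zero_iff] at hx hy
    have h1 : D.it j (D.zz x) = D.it j (D.zz y) := by
      rw [← DIS_zzF hD, ← DIS_zzF hD, hxy]
    have h2 := hD.inj 0 j hj (by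
        rw [mem_ball_iff_norm, hzz]
        nlinarith) (by
        rw [mem_ball_iff_norm, hzz]
        nlinarith) h1
    have h3 : D.b 0 + D.sg * x = D.b 0 + D.sg * y := h2
    exact mul_left_cancel₀ hsg (add_left_cancel h3)
  · intro j hj x hx
    have hx' := hx
    rw [mem_ball_zero_iff] at hx'
    obtain ⟨k1, k2⟩ := key j hj x hx
    refine ⟨?_, ?_⟩
    · rw [DIS_der hD]
      exact h0 (D.it j) (ball (D.b 0) (D.R 0 / 2)) isOpen_ball ((DIS_itd D j).differentiableOn)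
        (hD.inj 0 j hj) _ (by
          rw [mem_ball_iff_norm, hzz]
          nlinarith)
    · rw [DIS_der hD]
      have h4 : D.F j x - D.p (j : ZMod D.k) = (D.it j (D.zz x) - D.b (j : ZMod D.k)) / D.sg := by
        show (D.it j (D.zz x) - D.b 0) / D.sg - (D.b (j : ZMod D.k) - D.b 0) / D.sg = _
        ring
      rw [h4, norm_div, hsn, div_le_iff₀ hR0]
      calc ‖D.it j (D.zz x) - D.b (j : ZMod D.k)‖ ≤ K * (D.R 0 * ‖x‖) * ‖deriv (D.it j) (D.b 0)‖ := k2
        _ ≤ K * (D.R 0 * ‖x‖) * (K * ‖deriv (D.it j) (D.zz x)‖) :=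
          mul_le_mul_of_nonneg_left k1 (by positivity)
        _ = K ^ 2 * ‖x‖ * ‖deriv (D.it j) (D.zz x)‖ * D.R 0 := by ring

end XPT
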