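import Pool.Agent.helper60.XP.SpecE

/-! # xp:FCP. Circle integrals of entire functions -/

set_option autoImplicit false

open Complex Metric Set Filter Topology MeasureTheory
open V3 (En ZL)

noncomputable section

namespace XPE

theorem FCP : FCP_stmt := by
  intro q hq
  refine ⟨fun n => (n.factorial : ℂ)⁻¹ * iteratedDeriv n q 0, ?_, ?_⟩
  · intro n r hr
    have h1 := (hq.differentiableOn (s := closedBall 0 r)).circleIntegral_one_div_sub_center_pow_smul hr n
    have h2 : (∮ z in C(0, r), (1 / (z - 0) ^ (n + 1)) • q z) =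
        (I * ((r : ℂ) ^ n)⁻¹) * ∫ φ in (0 : ℝ)..(2 * Real.pi), q (r * exp (φ * I)) * exp (-(n * φ * I)) := by
      rw [circleIntegral, ← intervalIntegral.integral_const_mul]
      refine intervalIntegral.integral_congr fun φ _ => ?_
      have hr' : (r : ℂ) ≠ 0 := by exact_mod_cast hr.ne'
      have he : exp (φ * I) ≠ 0 := exp_ne_zero _
      have h3 : exp (-(n * φ * I)) = (exp (φ * I) ^ n)⁻¹ := by
        rw [← exp_nat_mul, exp_neg]
        congr 2
        ring
      simp only [deriv_circleMap, circleMap_zero, smul_eq_mul, sub_zero]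
      rw [h3]
      field_simp
      ring
    rw [h2, smul_eq_mul] at h1
    generalize (∫ φ in (0 : ℝ)..(2 * Real.pi), q (r * exp (φ * I)) * exp (-(n * φ * I))) = J at h1 ⊢
    have hr' : (r : ℂ) ^ n ≠ 0 := pow_ne_zero _ (by exact_mod_cast hr.ne')
    have hn : (n.factorial : ℂ) ≠ 0 := by exact_mod_cast n.factorial_ne_zero
    have hI : I ≠ 0 := I_ne_zero
    have h5 : I * J = I * (2 * Real.pi * ((n.factorial : ℂ)⁻¹ * iteratedDeriv n q 0) * r ^ n) := by
      have h6 : I * J = (I * ((r : ℂ) ^ n)⁻¹ * J) * (r : ℂ) ^ n := by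
        field_simp
      rw [h6, h1]
      field_simp
    exact mul_left_cancel₀ hI h5
  · intro d hd x
    have h1 := hasSum_taylorSeries_of_entire hq 0 x
    have h2 : HasSum (fun n : ℕ => (n.factorial : ℂ)⁻¹ • (x - 0) ^ n • iteratedDeriv n q 0)
        (∑ n ∈ Finset.range (d + 1), (n.factorial : ℂ)⁻¹ • (x - 0) ^ n • iteratedDeriv n q 0) := by
      refine hasSum_sum_of_ne_finset_zero fun n hn => ?_
      have h3 : (n.factorial : ℂ)⁻¹ * iteratedDeriv n q 0 = 0 := hd n (by
        rw [Finset.mem_range] at hn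
        omega)
      rw [smul_eq_mul, smul_eq_mul, mul_left_comm, h3, mul_zero]
    rw [h1.unique h2]
    refine Finset.sum_congr rfl fun n _ => ?_
    rw [smul_eq_mul, smul_eq_mul, sub_zero]
    ring

end XPE
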