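import Pool.Agent.helper54.XP.SpecG

/-!
# Project xp, module GBA: the `x`-plane
-/

set_option autoImplicit false

open Complex Metric Set Filter Topology MeasureTheory XP
open V3S (UF)

noncomputable section

namespace XPG

/-- The iterates are polynomials in the `x`-plane. -/
theorem GBA_poly (D : Dat) (j : ℕ) : ∃ Q : Polynomial ℂ, ∀ x, D.F j x = Q.eval x := by
  refine ⟨Polynomial.C D.sg⁻¹ * (D.f.comp^[j] (Polynomial.C (D.b 0) +
    Polynomial.C D.sg * Polynomial.X) - Polynomial.C (D.b 0)), fun x => ?_⟩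
  rw [Polynomial.eval_mul, Polynomial.eval_C, Polynomial.eval_sub, Polynomial.eval_C,
    Polynomial.iterate_comp_eval, Polynomial.eval_add, Polynomial.eval_C, Polynomial.eval_mul,
    Polynomial.eval_C, Polynomial.eval_X]
  unfold Dat.F Dat.xx Dat.zz
  rw [div_eq_inv_mul]

theorem GBA (hBA1 : XPL.BA1_stmt) : GBA_stmt := by
  intro n C D hD
  obtain ⟨⟨A, hA⟩, hG⟩ := hD
  obtain ⟨a1, -, a2, a3, a4, a5, a6, a7, -, -, a10, a11, -, a13, a14, a15⟩ := hBA1 n C A D hA
  have hlam : D.lam ≠ 0 := by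
    intro h
    have := hG.lam0
    rw [h] at this
    simp at this
  have hpz : ∀ x l, D.zz x - D.b l = D.sg * (x - D.p l) := by
    intro x l
    unfold Dat.zz Dat.p Dat.xx
    field_simp
    ring
  have hBb : ∀ x, D.Bb x = ∑ l, (1 / (x - D.p l) ^ 2 + D.sg * D.g l / (x - D.p l)) := by
    intro x
    unfold Dat.Bb MPS.BB
    rw [Finset.mul_sum]
    refine Finset.sum_congr rfl (fun l _ => ?_)
    rw [hpz]
    by_cases hx : x - D.p l = 0
    · rw [hx]; simp
    · field_simp
  refine ⟨a1, a3, a2, a5, a4, a10, a11, GBA_poly D, ?_, ?_, hBb, hlam, a13, ?_, a7, ?_, a6, ?_, ?_, ?_, a14⟩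
  · obtain ⟨Q, hQ⟩ := GBA_poly D D.k
    refine ⟨Polynomial.C D.lam⁻¹ * (Q - Polynomial.X), fun x => ?_⟩
    rw [Polynomial.eval_mul, Polynomial.eval_C, Polynomial.eval_sub, Polynomial.eval_X, ← hQ x]
    unfold Dat.v
    rw [div_eq_inv_mul]
  · intro l
    refine ⟨?_, ?_⟩
    · unfold Dat.v
      rw [a10 D.k l, ZMod.natCast_self, add_zero, sub_self, zero_div]
    · have e : D.v = fun x => (D.F D.k x - x) / D.lam := rfl
      have h2 : HasDerivAt (fun x => (D.F D.k x - x) / D.lam)
          ((deriv (D.F D.k) (D.p l) - 1) / D.lam) (D.p l) :=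
        (((a6 D.k) (D.p l)).hasDerivAt.sub (hasDerivAt_id _)).div_const _
      rw [e, h2.deriv, a15 l, hG.hrho]
  · unfold Dat.A
    have h1 : D.F 0 = fun x => x := funext a4
    rw [h1]
    exact deriv_id 0
  · intro x
    unfold Dat.v
    field_simp
    ring
  · exact ((a6 D.k).sub differentiable_id).div_const _
  · intro x
    unfold Dat.B Dat.H Dat.H0 Dat.Bb
    ring
  · intro x hx
    have h5 : D.Bb = fun x => ∑ l, (1 / (x - D.p l) ^ 2 + D.sg * D.g l / (x - D.p l)) := funext hBb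
    rw [h5]
    refine DifferentiableAt.fun_sum (fun l _ => ?_)
    have hne : x - D.p l ≠ 0 := sub_ne_zero.2 (hx l)
    have h6 : DifferentiableAt ℂ (fun x : ℂ => x - D.p l) x := by fun_prop
    exact (DifferentiableAt.div (differentiableAt_const _) (h6.pow 2) (pow_ne_zero _ hne)).add
      (DifferentiableAt.div (differentiableAt_const _) h6 hne)

end XPG
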