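import Mathlib

/-!
# Two-generated groups with a contracting action on a Hausdorff space

Let `G = ⟨a, b⟩` act by homeomorphisms on a Hausdorff space `X`, and let `x`, `y` be points with
infinite orbits such that for all neighbourhoods `U` of `x` and `V` of `y` some element of `G` maps
the complement of `U` into `V`. Then `⟨a, b ^ g⟩` is infinite for infinitely many `g`.
-/

set_option autoImplicit false

namespace Pool.Agent.Prox

open Set

variable {G X : Type*} [Group G] [MulAction G X] [TopologicalSpace X]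

/-- a finite set of permutations is avoided by small neighbourhoods -/
theorem avoid [T2Space X] (h3 : ∀ p q : X, ∃ r, r ≠ p ∧ r ≠ q) (F : Set (Equiv.Perm X))
    (hF : F.Finite) (x y : X) :
    ∃ U V : Set X, IsOpen U ∧ x ∈ U ∧ IsOpen V ∧ y ∈ V ∧
      ∀ s ∈ F, ∃ z, z ∉ U ∧ s z ∉ V := by
  have key : ∀ s : Equiv.Perm X, ∃ z : X, z ≠ x ∧ s z ≠ y := by
    intro s
    obtain ⟨r, hr1, hr2⟩ := h3 x (s.symm y)
    refine ⟨r, hr1, fun h => hr2 ?_⟩
    rw [← h, Equiv.symm_apply_apply]
  choose z hz1 hz2 using key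
  refine ⟨⋂ s ∈ F, {z s}ᶜ, ⋂ s ∈ F, {s (z s)}ᶜ, ?_, ?_, ?_, ?_, ?_⟩
  · exact hF.isOpen_biInter fun s _ => isOpen_compl_singleton
  · simp only [mem_iInter, mem_compl_iff, mem_singleton_iff]
    exact fun s _ h => hz1 s h.symm
  · exact hF.isOpen_biInter fun s _ => isOpen_compl_singleton
  · simp only [mem_iInter, mem_compl_iff, mem_singleton_iff]
    exact fun s _ h => hz2 s h.symm
  · intro s hs
    refine ⟨z s, ?_, ?_⟩
    · simp only [mem_iInter, mem_compl_iff, mem_singleton_iff, not_forall, not_not]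
      exact ⟨s, hs, rfl⟩
    · simp only [mem_iInter, mem_compl_iff, mem_singleton_iff, not_forall, not_not]
      exact ⟨s, hs, rfl⟩

/-- the elements that compress the complement of `O` into `O'` act in infinitely many ways -/
theorem many [T2Space X] (h3 : ∀ p q : X, ∃ r, r ≠ p ∧ r ≠ q) (x y : X)
    (hc : ∀ U V : Set X, IsOpen U → x ∈ U → IsOpen V → y ∈ V →
      ∃ g : G, ∀ z, z ∉ U → g • z ∈ V)
    (O O' : Set X) (hO : IsOpen O) (hxO : x ∈ O) (hO' : IsOpen O') (hyO' : y ∈ O') :
    {g : G | ∀ z, z ∉ O → g • z ∈ O'}.Infinite := by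
  intro hfin
  obtain ⟨U, V, hU, hxU, hV, hyV, hav⟩ := avoid h3
    ((fun g : G => MulAction.toPerm g) '' {g : G | ∀ z, z ∉ O → g • z ∈ O'})
    (hfin.image _) x y
  obtain ⟨g, hg⟩ := hc (O ∩ U) (O' ∩ V) (hO.inter hU) ⟨hxO, hxU⟩ (hO'.inter hV) ⟨hyO', hyV⟩
  have hgF : g ∈ {g : G | ∀ z, z ∉ O → g • z ∈ O'} := fun z hz => (hg z fun h => hz h.1).1
  obtain ⟨z, hz1, hz2⟩ := hav _ ⟨g, hgF, rfl⟩
  exact hz2 (hg z fun h => hz1 h.2).2

omit [TopologicalSpace X] in
/-- ping-pong with a non-surjective self-map of `O` -/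
theorem not_finOrder (a b : G) (O : Set X) (z0 : X) (ha : ∀ z ∈ O, a • z ∉ O) (hz0 : z0 ∉ O)
    (hz0' : ∀ z ∈ O, a • z ≠ z0) (hb : ∀ z, z ∉ O → b • z ∈ O) : ¬ IsOfFinOrder (b * a) := by
  intro hfin
  obtain ⟨n, hn, hpow⟩ := isOfFinOrder_iff_pow_eq_one.1 hfin
  have hmap : ∀ k : ℕ, ∀ z ∈ O, (b * a) ^ k • z ∈ O := by
    intro k
    induction k with
    | zero => intro z hz; simpa using hz
    | succ k ih =>
      intro z hz
      rw [pow_succ, mul_smul]
      refine ih _ ?_
      rw [mul_smul]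
      exact hb _ (ha z hz)
  obtain ⟨m, rfl⟩ : ∃ m, n = m + 1 := ⟨n - 1, by omega⟩
  have h1 : b • z0 ∈ O := hb z0 hz0
  have h2 := hmap m _ h1
  refine hz0' _ h2 ?_
  have h3 : (b * a) ^ (m + 1) • (b • z0) = b • z0 := by rw [hpow, one_smul]
  rw [pow_succ', mul_smul, mul_smul] at h3
  exact smul_left_cancel b h3

omit [TopologicalSpace X] in
/-- an element acting nontrivially near a point of an infinite orbit -/
theorem exists_moved (a b : G) (hgen : Subgroup.closure ({a, b} : Set G) = ⊤)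
    (hb : IsOfFinOrder b) (x : X) (hx : (MulAction.orbit G x).Infinite) :
    ∃ h : G, a • (h • x) ≠ h • x := by
  by_contra hcon
  push Not at hcon
  apply hx
  -- the set of all `b ^ k • x` is the orbit
  have hsub : MulAction.orbit G x ⊆ (fun g : G => g • x) '' (Subgroup.zpowers b : Set G) := by
    have hall : ∀ g : G, ∀ h : G, ∃ k ∈ Subgroup.zpowers b, g • (h • x) = k • (h • x) := by
      intro g
      have hg : g ∈ Subgroup.closure ({a, b} : Set G) := by rw [hgen]; trivial
      induction hg using Subgroup.closure_induction with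
      | mem s hs =>
        intro h
        rcases hs with rfl | hs
        · exact ⟨1, Subgroup.one_mem _, by rw [hcon h, one_smul]⟩
        · rw [mem_singleton_iff] at hs
          subst hs
          exact ⟨s, Subgroup.mem_zpowers s, rfl⟩
      | one => intro h; exact ⟨1, Subgroup.one_mem _, rfl⟩
      | mul s t _ _ hs ht =>
        intro h
        obtain ⟨k, hk, hk'⟩ := ht h
        obtain ⟨l, hl, hl'⟩ := hs (t * h)
        refine ⟨l * k, Subgroup.mul_mem _ hl hk, ?_⟩
        rw [mul_smul, hk', mul_smul]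
        rw [mul_smul, hk'] at hl'
        exact hl'
      | inv s _ hs =>
        intro h
        obtain ⟨k, hk, hk'⟩ := hs (s⁻¹ * h)
        refine ⟨k⁻¹, Subgroup.inv_mem _ hk, ?_⟩
        rw [mul_smul, smul_inv_smul] at hk'
        rw [hk', inv_smul_smul, ← hk']
    rintro _ ⟨g, rfl⟩
    obtain ⟨k, hk, hk'⟩ := hall g 1
    refine ⟨k, hk, ?_⟩
    simpa using hk'.symm
  have : Finite (Subgroup.zpowers b) := finite_zpowers.2 hb
  exact ((Set.toFinite (Subgroup.zpowers b : Set G)).image _).subset hsub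

theorem closure_infinite_of_left (a b : G) (c : G) (hc : c ∈ Subgroup.closure ({a, b} : Set G))
    (h : ¬ IsOfFinOrder c) : (Subgroup.closure ({a, b} : Set G) : Set G).Infinite := by
  intro hfin
  apply h
  have h1 : (Subgroup.zpowers c : Set G).Finite := by
    refine hfin.subset ?_
    intro t ht
    exact (Subgroup.zpowers_le.2 hc) ht
  have h2 : Finite (Subgroup.zpowers c) := h1.to_subtype
  exact finite_zpowers.1 h2

/-- **Theorem D'.** -/
theorem main [T2Space X] [ContinuousConstSMul G X] (a b : G)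
    (hgen : Subgroup.closure ({a, b} : Set G) = ⊤) (x y : X)
    (hx : (MulAction.orbit G x).Infinite) (hy : (MulAction.orbit G y).Infinite)
    (hc : ∀ U V : Set X, IsOpen U → x ∈ U → IsOpen V → y ∈ V →
      ∃ g : G, ∀ z, z ∉ U → g • z ∈ V) :
    {g : G | (Subgroup.closure ({a, g⁻¹ * b * g} : Set G) : Set G).Infinite}.Infinite := by
  have h3 : ∀ p q : X, ∃ r, r ≠ p ∧ r ≠ q := by
    intro p q
    have : (MulAction.orbit G x \ {p, q}).Infinite := hx.sdiff (Set.toFinite _)
    obtain ⟨r, hr⟩ := this.nonempty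
    refine ⟨r, fun h => hr.2 (by simp [h]), fun h => hr.2 (by simp [h])⟩
  have hGinf : (univ : Set G).Infinite := by
    refine (many (G := G) h3 x y hc univ univ isOpen_univ trivial isOpen_univ trivial).mono ?_
    exact subset_univ _
  by_cases ha : IsOfFinOrder a
  swap
  · refine hGinf.mono fun g _ => ?_
    exact closure_infinite_of_left _ _ a (Subgroup.subset_closure (by simp)) ha
  by_cases hb : IsOfFinOrder b
  swap
  · refine hGinf.mono fun g _ => ?_
    refine closure_infinite_of_left _ _ (g⁻¹ * b * g) (Subgroup.subset_closure (by simp)) ?_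
    intro h
    apply hb
    obtain ⟨n, hn, hpow⟩ := isOfFinOrder_iff_pow_eq_one.1 h
    refine isOfFinOrder_iff_pow_eq_one.2 ⟨n, hn, ?_⟩
    have h5 : (g⁻¹ * b * g⁻¹⁻¹) ^ n = 1 := by rw [inv_inv]; exact hpow
    rw [conj_pow] at h5
    rw [mul_inv_eq_one] at h5
    have h6 : g⁻¹ * b ^ n = g⁻¹ * 1 := by rw [h5, mul_one]
    exact mul_left_cancel h6
  obtain ⟨h, hh⟩ := exists_moved a b hgen hb x hx
  obtain ⟨k, hk⟩ := exists_moved b a (by rw [Set.pair_comm]; exact hgen) ha y hy
  -- contraction from `h • x` to `k • y`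
  have hc' : ∀ U V : Set X, IsOpen U → h • x ∈ U → IsOpen V → k • y ∈ V →
      ∃ g : G, ∀ z, z ∉ U → g • z ∈ V := by
    intro U V hU hxU hV hyV
    obtain ⟨g, hg⟩ := hc ((fun z => h • z) ⁻¹' U) ((fun z => k • z) ⁻¹' V)
      (hU.preimage (continuous_const_smul h)) hxU (hV.preimage (continuous_const_smul k)) hyV
    refine ⟨k * g * h⁻¹, fun z hz => ?_⟩
    rw [mul_smul, mul_smul]
    refine hg (h⁻¹ • z) fun hmem => hz ?_
    have : h • h⁻¹ • z ∈ U := hmem
    rwa [smul_inv_smul] at this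
  set p := h • x with hp
  set q := k • y with hq
  obtain ⟨A, B, hA, hB, hpA, hpB, hAB⟩ := t2_separation (show p ≠ a • p from fun h => hh h.symm)
  obtain ⟨A', B', hA', hB', hqA', hqB', hAB'⟩ :=
    t2_separation (show q ≠ b • q from fun h => hk h.symm)
  obtain ⟨t, ht1, ht2⟩ := h3 p (a • p)
  set O : Set X := (A ∩ (fun z => a • z) ⁻¹' B) ∩ ({t}ᶜ ∩ (fun z => a • z) ⁻¹' {t}ᶜ) with hOdef
  have hO : IsOpen O :=
    (hA.inter (hB.preimage (continuous_const_smul a))).inter
      (isOpen_compl_singleton.inter (isOpen_compl_singleton.preimage (continuous_const_smul a)))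
  have hpO : p ∈ O := ⟨⟨hpA, hpB⟩, fun h => ht1 h.symm, fun h => ht2 h.symm⟩
  set O' : Set X := A' ∩ (fun z => b • z) ⁻¹' B' with hO'def
  have hO' : IsOpen O' := hA'.inter (hB'.preimage (continuous_const_smul b))
  have hqO' : q ∈ O' := ⟨hqA', hqB'⟩
  refine (many (G := G) h3 p q hc' O O' hO hpO hO' hqO').mono ?_
  intro g hg
  refine closure_infinite_of_left a (g⁻¹ * b * g) ((g⁻¹ * b * g) * a)
    (Subgroup.mul_mem _ (Subgroup.subset_closure (by simp)) (Subgroup.subset_closure (by simp))) ?_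
  refine not_finOrder (X := X) a (g⁻¹ * b * g) O t ?_ ?_ ?_ ?_
  · intro z hz hz'
    exact Set.disjoint_left.1 hAB hz'.1.1 hz.1.2
  · intro ht
    exact ht.2.1 rfl
  · intro z hz h5
    exact hz.2.2 h5
  · intro z hz
    by_contra hcon
    have h5 : g • z ∈ O' := hg z hz
    have h6 : g • ((g⁻¹ * b * g) • z) ∈ O' := hg _ hcon
    rw [← mul_smul, ← mul_assoc, ← mul_assoc, mul_inv_cancel, one_mul, mul_smul] at h6
    exact Set.disjoint_left.1 hAB' h6.1 h5.2

/-- **Theorem D**: extremely proximal actions -/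
theorem main_extremelyProximal [T2Space X] [ContinuousConstSMul G X] (a b : G)
    (hgen : Subgroup.closure ({a, b} : Set G) = ⊤)
    (hX : ∃ p q r : X, p ≠ q ∧ p ≠ r ∧ q ≠ r)
    (hc : ∀ U V : Set X, IsOpen U → U.Nonempty → IsOpen V → V.Nonempty →
      ∃ g : G, ∀ z, z ∉ U → g • z ∈ V) :
    {g : G | (Subgroup.closure ({a, g⁻¹ * b * g} : Set G) : Set G).Infinite}.Infinite := by
  obtain ⟨p, q, r, hpq, hpr, hqr⟩ := hX
  have h3 : ∀ u v : X, ∃ w, w ≠ u ∧ w ≠ v := by
    intro u v
    by_cases h1 : p = u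
    · subst h1
      by_cases h2 : q = v
      · subst h2; exact ⟨r, fun h => hpr h.symm, fun h => hqr h.symm⟩
      · exact ⟨q, fun h => hpq h.symm, h2⟩
    · by_cases h2 : p = v
      · subst h2
        by_cases h3 : q = u
        · subst h3; exact ⟨r, fun h => hqr h.symm, fun h => hpr h.symm⟩
        · exact ⟨q, h3, fun h => hpq h.symm⟩
      · exact ⟨p, h1, h2⟩
  have horb : ∀ x : X, (MulAction.orbit G x).Infinite := by
    intro x hfin
    -- every nonempty open set meets the orbit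
    have hdense : ∀ V : Set X, IsOpen V → V.Nonempty → ∃ g : G, g • x ∈ V := by
      intro V hV hVn
      obtain ⟨w, hw, -⟩ := h3 x x
      obtain ⟨g, hg⟩ := hc {x}ᶜ V isOpen_compl_singleton ⟨w, hw⟩ hV hVn
      exact ⟨g, hg x (by simp)⟩
    have huniv : MulAction.orbit G x = univ := by
      by_contra hne
      have hne' : ((MulAction.orbit G x)ᶜ).Nonempty := by
        rw [Set.nonempty_compl]; exact hne
      obtain ⟨g, hg⟩ := hdense _ hfin.isClosed.isOpen_compl hne'
      exact hg ⟨g, rfl⟩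
    have hXfin : Finite X := by
      rw [huniv] at hfin
      exact Set.finite_univ_iff.1 hfin
    have : DiscreteTopology X := inferInstance
    obtain ⟨g, hg⟩ := hc {p} {p} (isOpen_discrete _) ⟨p, rfl⟩ (isOpen_discrete _) ⟨p, rfl⟩
    have h1 : g • q = p := hg q fun h => hpq h.symm
    have h2 : g • r = p := hg r fun h => hpr h.symm
    exact hqr (smul_left_cancel g (h1.trans h2.symm))
  exact main a b hgen p p (horb p) (horb p) fun U V hU hpU hV hpV => hc U V hU ⟨p, hpU⟩ hV ⟨p, hpV⟩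

end Pool.Agent.Prox
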